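import Mathlib

set_option autoImplicit false

namespace Pool.Agent.Results.MP_f6f917_al.NoCyclicBlock

/-- every element moves only finitely many points -/
def Finitary {Ω : Type} (G : Subgroup (Equiv.Perm Ω)) : Prop := ∀ g ∈ G, {x | g x ≠ x}.Finite

/-- a single orbit -/
def Transitive {Ω : Type} (G : Subgroup (Equiv.Perm Ω)) : Prop := ∀ x y : Ω, ∃ g ∈ G, g x = y

/-- a maximal `p`-subgroup of `G` -/
def IsSylowIn {Ω : Type} (p : ℕ) (S G : Subgroup (Equiv.Perm Ω)) : Prop :=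
  S ≤ G ∧ IsPGroup p S ∧ ∀ T : Subgroup (Equiv.Perm Ω), T ≤ G → IsPGroup p T → S ≤ T → T = S

/-- a block for `H` -/
def Block {Ω : Type} (H : Subgroup (Equiv.Perm Ω)) (B : Set Ω) : Prop :=
  B.Nonempty ∧ ∀ h ∈ H, h '' B = B ∨ Disjoint (h '' B) B

def tb (i : Fin 32) (x : Fin 8) : Fin 8 := Fin.ofNat 8
  (201490603446640815848636117834480972323770418575462841581262523058679191839590858057270692412722520297801101469657144142014382201196637339574936700733016256279284504950467636929141447268848080051033534159369389561591077130607445640 / 8 ^ (8 * i.1 + x.1))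

def Pl : Set (Fin 8 → Fin 8) := Set.range tb

lemma Pl_one : (fun x => x) ∈ Pl := ⟨0, funext (by decide +kernel)⟩

lemma Pl_mul : ∀ g ∈ Pl, ∀ h ∈ Pl, (fun x => g (h x)) ∈ Pl := by
  have : ∀ i j, ∃ k, ∀ x, tb k x = tb i (tb j x) := by decide +kernel
  rintro _ ⟨i, rfl⟩ _ ⟨j, rfl⟩
  obtain ⟨k, hk⟩ := this i j
  exact ⟨k, funext hk⟩

lemma Pl_inv : ∀ g ∈ Pl, ∃ h ∈ Pl, (∀ x, h (g x) = x) ∧ ∀ x, g (h x) = x := by
  have : ∀ i, ∃ k, (∀ x, tb k (tb i x) = x) ∧ ∀ x, tb i (tb k x) = x := by decide +kernel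
  rintro _ ⟨i, rfl⟩
  obtain ⟨k, hk⟩ := this i
  exact ⟨_, ⟨k, rfl⟩, hk⟩

lemma Pl_pow : ∀ g ∈ Pl, ∀ x, g (g (g (g x))) = x := by
  have : ∀ i x, tb i (tb i (tb i (tb i x))) = x := by decide +kernel
  rintro _ ⟨i, rfl⟩
  exact this i

lemma Pl_tr : ∀ x y, ∃ g ∈ Pl, g x = y := by
  have : ∀ x y, ∃ i, tb i x = y := by decide +kernel
  intro x y
  obtain ⟨i, hi⟩ := this x y
  exact ⟨_, ⟨i, rfl⟩, hi⟩

lemma Pl_viol : ∀ g ∈ Pl, g 0 = 2 → ∀ h ∈ Pl, h 0 = 4 → ∃ x, g (g x) = x ∧ g (h (g (h x))) = x ∧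
    g (h (g (h (g x)))) ≠ x ∧ g (h (g (h (g x)))) ≠ g x := by
  have : ∀ i, tb i 0 = 2 → ∀ j, tb j 0 = 4 → ∃ x, tb i (tb i x) = x ∧
    tb i (tb j (tb i (tb j x))) = x ∧ tb i (tb j (tb i (tb j (tb i x)))) ≠ x ∧
    tb i (tb j (tb i (tb j (tb i x)))) ≠ tb i x := by decide +kernel
  rintro _ ⟨i, rfl⟩ hi _ ⟨j, rfl⟩ hj
  exact this i hi j hj

abbrev Ω : Type := Fin 8 × ℕ

def S : Subgroup (Equiv.Perm Ω) where
  carrier := {σ | (∃ n, ∀ z : Ω, 2 ^ n ≤ z.2 → σ z = z) ∧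
    (∀ k (a b : Ω), (σ a).2 / 2 ^ k = (σ b).2 / 2 ^ k ↔ a.2 / 2 ^ k = b.2 / 2 ^ k) ∧
    ∀ l, (fun x => (σ (x, l)).1) ∈ Pl}
  one_mem' := ⟨⟨0, fun _ _ => rfl⟩, fun _ _ _ => Iff.rfl, fun _ => Pl_one⟩
  mul_mem' := by
    rintro a b ⟨⟨n, a1⟩, a2, a3⟩ ⟨⟨m, b1⟩, b2, b3⟩
    refine ⟨⟨n + m, fun z hz => ?_⟩, fun k x y => (a2 k _ _).trans (b2 k x y), fun l => ?_⟩
    · rw [Equiv.Perm.mul_apply, b1 z ((Nat.pow_le_pow_right (by omega) (by omega)).trans hz),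
        a1 z ((Nat.pow_le_pow_right (by omega) (by omega)).trans hz)]
    · have := Pl_mul _ (a3 (b (0, l)).2) _ (b3 l)
      convert this using 2 with x
      have := (b2 0 (0, l) (x, l)).2 rfl
      simp only [pow_zero, Nat.div_one] at this
      rw [Equiv.Perm.mul_apply, this]
  inv_mem' := by
    rintro a ⟨⟨n, a1⟩, a2, a3⟩
    refine ⟨⟨n, fun z hz => by rw [Equiv.Perm.inv_eq_iff_eq, a1 z hz]⟩, fun k x y => ?_, fun l => ?_⟩
    · rw [← a2 k (a⁻¹ x) (a⁻¹ y)]; simp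
    · obtain ⟨h, hh, h1, -⟩ := Pl_inv _ (a3 (a⁻¹ (0, l)).2)
      convert hh using 2 with x
      have := (a2 0 (a⁻¹ (0, l)) (a⁻¹ (x, l))).1 (by simp)
      simp only [pow_zero, Nat.div_one] at this
      have h2 := h1 (a⁻¹ (x, l)).1
      rw [this] at h2
      simpa using h2.symm

lemma fin_S : Finitary S := by
  rintro g ⟨⟨n, h⟩, -⟩
  refine ((Set.finite_univ (α := Fin 8)).prod (Set.finite_lt_nat (2 ^ n))).subset fun z hz => ?_
  exact ⟨trivial, lt_of_not_ge fun h' => hz (h z h')⟩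

lemma div_le {a b k n : ℕ} (h : a / 2 ^ k = b / 2 ^ k) (hk : k ≤ n) : a < 2 ^ n ↔ b < 2 ^ n := by
  obtain ⟨j, rfl⟩ := Nat.exists_eq_add_of_le hk
  rw [pow_add, mul_comm, ← Nat.div_lt_iff_lt_mul (by positivity),
    ← Nat.div_lt_iff_lt_mul (by positivity), h]

lemma xor_div (a c k : ℕ) : (a ^^^ c) / 2 ^ k = a / 2 ^ k ^^^ c / 2 ^ k := Nat.xor_div_two_pow

lemma tr_S : Transitive S := by
  rintro ⟨x, l⟩ ⟨y, m⟩
  obtain ⟨g, hg, hxy⟩ := Pl_tr x y
  obtain ⟨h, hh, h1, h2⟩ := Pl_inv g hg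
  have hl : l < 2 ^ (l + m) := Nat.lt_two_pow_self.trans_le (Nat.pow_le_pow_right (by omega) (by omega))
  have hm : m < 2 ^ (l + m) := Nat.lt_two_pow_self.trans_le (Nat.pow_le_pow_right (by omega) (by omega))
  generalize l + m = n at hl hm
  have hc : l ^^^ m < 2 ^ n := Nat.xor_lt_two_pow hl hm
  have key : ∀ g h : Fin 8 → Fin 8, (∀ x, h (g x) = x) → ∀ z : Ω,
      (fun z : Ω => if z.2 < 2 ^ n then (h z.1, z.2 ^^^ (l ^^^ m)) else z)
        ((fun z : Ω => if z.2 < 2 ^ n then (g z.1, z.2 ^^^ (l ^^^ m)) else z) z) = z := by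
    intro g h e z
    by_cases hz : z.2 < 2 ^ n
    · simp [hz, Nat.xor_lt_two_pow hz hc, e]
    · simp [hz]
  refine ⟨⟨fun z : Ω => if z.2 < 2 ^ n then (g z.1, z.2 ^^^ (l ^^^ m)) else z,
    fun z : Ω => if z.2 < 2 ^ n then (h z.1, z.2 ^^^ (l ^^^ m)) else z, key g h h1, key h g h2⟩,
    ⟨⟨n, fun z hz => if_neg (not_lt.2 hz)⟩, fun k a b => ?_,
    fun t => ?_⟩, ?_⟩
  · simp only [Equiv.coe_fn_mk]
    rcases le_total k n with hk | hk
    · by_cases ha : a.2 < 2 ^ n <;> by_cases hb : b.2 < 2 ^ n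
      · simp only [ha, hb, if_true, xor_div, Nat.xor_left_inj]
      · simp only [ha, hb, if_true, if_false]
        exact ⟨fun e => absurd ((div_le e hk).1 (Nat.xor_lt_two_pow ha hc)) hb,
          fun e => absurd ((div_le e hk).1 ha) hb⟩
      · simp only [ha, hb, if_true, if_false]
        exact ⟨fun e => absurd ((div_le e hk).2 (Nat.xor_lt_two_pow hb hc)) ha,
          fun e => absurd ((div_le e hk).2 hb) ha⟩
      · simp only [ha, hb, if_false]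
    · have h0 : (l ^^^ m) / 2 ^ k = 0 :=
        Nat.div_eq_of_lt (hc.trans_le (Nat.pow_le_pow_right (by omega) hk))
      split_ifs <;> simp only [xor_div _ (l ^^^ m), h0, Nat.xor_zero]
  · simp only [Equiv.coe_fn_mk]
    split_ifs
    · exact hg
    · exact Pl_one
  · simp [hl, hxy]

lemma fib {σ : Equiv.Perm Ω} (hσ : ∀ z, (σ z).2 = z.2) (x : Fin 8) (l : ℕ) :
    σ (x, l) = ((σ (x, l)).1, l) := Prod.ext rfl (hσ _)

lemma p_S : IsPGroup 2 S := by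
  rintro ⟨σ, hσ⟩
  obtain ⟨n, hn⟩ := hσ.1
  have step : ∀ j i, i + j = n → ∀ z, ((σ ^ 2 ^ j) z).2 / 2 ^ i = z.2 / 2 ^ i := by
    intro j
    induction j with
    | zero =>
      intro i hi z
      obtain rfl : i = n := hi
      simp only [pow_zero, pow_one]
      by_cases hz : z.2 < 2 ^ i
      · rw [Nat.div_eq_of_lt hz, Nat.div_eq_of_lt]
        by_contra hh
        have := σ.injective (hn _ (not_lt.1 hh))
        exact hh (by rwa [this])
      · rw [hn z (not_lt.1 hz)]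
    | succ j ih =>
      intro i hi z
      have h1 := ih (i + 1) (by omega) z
      have h2 := ih (i + 1) (by omega) ((σ ^ 2 ^ j) z)
      have h3 := (S.pow_mem hσ (2 ^ j)).2.1 i ((σ ^ 2 ^ j) z) z
      rw [pow_succ, pow_mul, sq, Equiv.Perm.mul_apply]
      simp only [pow_succ, ← Nat.div_div_eq_div_mul] at h1 h2
      omega
  have h0 : ∀ z, ((σ ^ 2 ^ n) z).2 = z.2 := by simpa using step n 0 (by omega)
  refine ⟨n + 2, Subtype.ext ?_⟩
  change σ ^ 2 ^ (n + 2) = 1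
  rw [pow_add, pow_mul]
  have hτ := S.pow_mem hσ (2 ^ n)
  generalize σ ^ 2 ^ n = τ at h0 hτ
  refine Equiv.ext fun z => ?_
  have := Pl_pow _ (hτ.2.2 z.2) z.1
  change τ (τ (τ (τ z))) = z
  refine Prod.ext ?_ (by rw [h0, h0, h0, h0])
  rw [← this, ← fib h0, ← fib h0, ← fib h0]

lemma fib0 {σ : Equiv.Perm Ω} (hσ : σ ∈ S) (h : (σ (0, 0)).2 = 0) (x : Fin 8) :
    σ (x, 0) = ((σ (x, 0)).1, 0) := by
  have := (hσ.2.1 0 (x, 0) (0, 0)).2 rfl
  simp only [pow_zero, Nat.div_one] at this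
  exact Prod.ext rfl (this.trans h)

/-- On an infinite set there is a transitive finitary `2`-group `S` (a Sylow `2`-subgroup of the
transitive finitary group `G = S`) such that every transitive subgroup `H` of `S` has an element
with a cycle whose support is not a block for `H`. -/
theorem result : ∃ (Ω : Type) (_ : Infinite Ω) (p : ℕ) (G S : Subgroup (Equiv.Perm Ω)),
    p.Prime ∧ Finitary G ∧ Transitive G ∧ IsSylowIn p S G ∧ Transitive S ∧
      ∀ H : Subgroup (Equiv.Perm Ω), H ≤ S → Transitive H →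
        ∃ h ∈ H, ∃ x : Ω, ¬ Block H {y | h.SameCycle x y} := by
  refine ⟨Ω, inferInstance, 2, S, S, Nat.prime_two, fin_S, tr_S,
    ⟨le_rfl, p_S, fun T h1 _ h2 => le_antisymm h1 h2⟩, tr_S, fun H hH hT => ?_⟩
  obtain ⟨a, ha, ea⟩ := hT (0, 0) (2, 0)
  obtain ⟨b, hb, eb⟩ := hT (0, 0) (4, 0)
  have fa := fib0 (hH ha) (by rw [ea])
  have fb := fib0 (hH hb) (by rw [eb])
  obtain ⟨x, v1, v2, v3, v4⟩ := Pl_viol _ ((hH ha).2.2 0) (by simp [ea]) _
    ((hH hb).2.2 0) (by simp [eb])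
  obtain ⟨d, hd, ed⟩ : ∃ d ∈ H, ∀ y : Fin 8, d (y, 0) =
      ((a ((b ((a ((b (y, 0)).1, 0)).1, 0)).1, 0)).1, 0) :=
    ⟨a * b * a * b, mul_mem (mul_mem (mul_mem ha hb) ha) hb, fun y => by
      rw [← fa, ← fb, ← fa, ← fb]; rfl⟩
  obtain ⟨c, hc, ec⟩ : ∃ c ∈ H, ∀ y : Fin 8, c (y, 0) = ((a (y, 0)).1, 0) := ⟨a, ha, fa⟩
  have c2 : c (c (x, 0)) = (x, 0) := by rw [ec, ec]; exact Prod.ext v1 rfl
  have d1 : d (x, 0) = (x, 0) := by rw [ed]; exact Prod.ext v2 rfl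
  refine ⟨c, hc, (x, 0), fun hB => ?_⟩
  have m0 : (x, 0) ∈ {y | c.SameCycle (x, 0) y} := Equiv.Perm.SameCycle.refl _ _
  rcases hB.2 d hd with e | e
  · have m1 : d (c (x, 0)) ∈ {y | c.SameCycle (x, 0) y} := by
      rw [← e]; exact ⟨_, ⟨1, by simp⟩, rfl⟩
    obtain ⟨i, hi⟩ := m1
    have bij : Set.BijOn c {(x, 0), c (x, 0)} {(x, 0), c (x, 0)} := by
      refine ⟨?_, c.injective.injOn, ?_⟩
      · rintro _ (rfl | rfl)
        · exact Or.inr rfl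
        · exact Or.inl c2
      · rintro _ (rfl | rfl)
        · exact ⟨_, Or.inr rfl, c2⟩
        · exact ⟨_, Or.inl rfl, rfl⟩
    have := (bij.perm_zpow i).mapsTo (Or.inl rfl)
    rw [hi, ec, ed] at this
    rcases this with h | h
    · exact v3 (congrArg Prod.fst h)
    · exact v4 (Prod.ext_iff.1 (Set.mem_singleton_iff.1 h)).1
  · exact Set.disjoint_left.1 e ⟨_, m0, d1⟩ m0

end Pool.Agent.Results.MP_f6f917_al.NoCyclicBlock
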